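import Pool.Agent.Helper20.KP.StH

set_option autoImplicit false

/-! Project KP, module HSE: functions which are polynomials along almost all coordinate lines. -/

namespace Pool.Agent.Helper37.KP

open MeasureTheory Filter Pool.Agent.Helper52.KP Pool.Agent.Helper20.KP
open scoped Topology

section

variable {m : ℕ}

private noncomputable def ej (j : Fin (m + 1)) : (Fin (m + 1) → ℂ) ≃ᵐ ℂ × (Fin m → ℂ) :=
  MeasurableEquiv.piFinSuccAbove (fun _ => ℂ) j

private lemma mpe (j : Fin (m + 1)) : MeasurePreserving (ej (m := m) j) volume volume :=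
  volume_preserving_piFinSuccAbove (fun _ => ℂ) j

private lemma ej_symm (j : Fin (m + 1)) (t : ℂ) (y' : Fin m → ℂ) :
    (ej j).symm (t, y') = j.insertNth t y' := rfl

private lemma ej_snd (j : Fin (m + 1)) (y : Fin (m + 1) → ℂ) : (ej j y).2 = j.removeNth y := rfl

/-- Fubini, first form -/
private lemma ae_ins1 (j : Fin (m + 1)) {p : (Fin (m + 1) → ℂ) → Prop} (h : ∀ᵐ y, p y) :
    ∀ᵐ t : ℂ, ∀ᵐ y' : Fin m → ℂ, p (j.insertNth t y') := by
  have h1 := ((mpe j).symm (ej j)).quasiMeasurePreserving.ae h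
  rw [Measure.volume_eq_prod] at h1
  exact Measure.ae_ae_of_ae_prod h1

/-- Fubini, second form -/
private lemma ae_ins2 (j : Fin (m + 1)) {p : (Fin (m + 1) → ℂ) → Prop} (h : ∀ᵐ y, p y) :
    ∀ᵐ y' : Fin m → ℂ, ∀ᵐ t : ℂ, p (j.insertNth t y') := by
  have h1 := ((mpe j).symm (ej j)).quasiMeasurePreserving.ae h
  rw [Measure.volume_eq_prod] at h1
  have h2 := (Measure.measurePreserving_swap (μ := (volume : Measure (Fin m → ℂ)))
    (ν := (volume : Measure ℂ))).quasiMeasurePreserving.ae h1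
  exact Measure.ae_ae_of_ae_prod h2

private lemma ae_rem (j : Fin (m + 1)) {R : (Fin m → ℂ) → Prop} (h : ∀ᵐ y', R y') :
    ∀ᵐ y : Fin (m + 1) → ℂ, R (j.removeNth y) := by
  have h1 : ∀ᵐ z : ℂ × (Fin m → ℂ), R z.2 := by
    rw [Measure.volume_eq_prod]
    exact Measure.quasiMeasurePreserving_snd.ae h
  exact (mpe j).quasiMeasurePreserving.ae h1

private lemma ae_of_rem (j : Fin (m + 1)) {R : (Fin m → ℂ) → Prop}
    (h : ∀ᵐ y : Fin (m + 1) → ℂ, R (j.removeNth y)) : ∀ᵐ y', R y' := by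
  have h1 := ae_ins1 j h
  obtain ⟨t, ht⟩ := h1.exists
  simpa using ht

private lemma ae_upd (j : Fin (m + 1)) {p : (Fin (m + 1) → ℂ) → Prop} (h : ∀ᵐ y, p y) :
    ∀ᵐ y : Fin (m + 1) → ℂ, ∀ᵐ t : ℂ, p (Function.update y j t) := by
  have h1 := ae_rem j (ae_ins2 j h)
  simpa using h1

private lemma meas_cons {α : Type*} [MeasurableSpace α] {a : α → ℂ} {b : α → Fin m → ℂ}
    (ha : Measurable a) (hb : Measurable b) :
    Measurable (fun x => (Fin.cons (a x) (b x) : Fin (m + 1) → ℂ)) := by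
  refine measurable_pi_iff.2 fun i => ?_
  refine Fin.cases ?_ (fun i => ?_) i
  · simpa using ha
  · have h : Measurable fun x => b x i := (measurable_pi_apply i).comp hb
    simpa using h

end

/-- Lagrange basis -/
private noncomputable def La {d : ℕ} (τ : Fin (d + 1) → ℂ) (i : Fin (d + 1)) (t : ℂ) : ℂ :=
  ∏ j ∈ Finset.univ.erase i, ((τ i - τ j)⁻¹ * (t - τ j))

private lemma interp {d : ℕ} (τ : Fin (d + 1) → ℂ) (hτ : Function.Injective τ) (P : Polynomial ℂ)
    (hP : P.natDegree ≤ d) (t : ℂ) : P.eval t = ∑ i, La τ i t * P.eval (τ i) := by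
  have hdeg : P.degree < (Finset.univ : Finset (Fin (d + 1))).card := by
    rw [Finset.card_univ, Fintype.card_fin]
    refine lt_of_le_of_lt Polynomial.degree_le_natDegree ?_
    exact_mod_cast Nat.lt_succ_of_le hP
  have h1 := Lagrange.eq_interpolate (s := Finset.univ) (v := τ) (hτ.injOn) hdeg
  conv_lhs => rw [h1]
  rw [Lagrange.interpolate_apply, Polynomial.eval_finsetSum]
  apply Finset.sum_congr rfl
  intro i _
  rw [Polynomial.eval_mul, Polynomial.eval_C, mul_comm]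
  congr 1
  unfold Lagrange.basis La
  rw [Polynomial.eval_prod]
  apply Finset.prod_congr rfl
  intro j _
  unfold Lagrange.basisDivisor
  simp

private noncomputable def Lp {m d : ℕ} (τ : Fin (d + 1) → ℂ) (i : Fin (d + 1)) :
    MvPolynomial (Fin (m + 1)) ℂ :=
  ∏ j ∈ Finset.univ.erase i, (MvPolynomial.C ((τ i - τ j)⁻¹) *
    (MvPolynomial.X 0 - MvPolynomial.C (τ j)))

private lemma Lp_eval {m d : ℕ} (τ : Fin (d + 1) → ℂ) (i : Fin (d + 1)) (y : Fin (m + 1) → ℂ) :
    ev (Lp (m := m) τ i) y = La τ i (y 0) := by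
  unfold Lp La ev
  rw [map_prod]
  apply Finset.prod_congr rfl
  intro j _
  simp

/-- the nodes are in these balls -/
private def BB (d : ℕ) : Set (Fin (d + 1) → ℂ) :=
  Set.pi Set.univ fun i => Metric.ball ((3 * (i : ℕ) : ℕ) : ℂ) 1

private lemma BB_open (d : ℕ) : IsOpen (BB d) :=
  isOpen_set_pi Set.finite_univ fun _ _ => Metric.isOpen_ball

private lemma BB_inj {d : ℕ} {τ : Fin (d + 1) → ℂ} (h : τ ∈ BB d) : Function.Injective τ := by
  intro i j hij
  by_contra hne
  have h1 := h i (Set.mem_univ _)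
  have h2 := h j (Set.mem_univ _)
  rw [← hij] at h2
  have h1' : dist (τ i) ((3 * (i : ℕ) : ℕ) : ℂ) < 1 := h1
  have h2' : dist (τ i) ((3 * (j : ℕ) : ℕ) : ℂ) < 1 := h2
  have h3 : dist ((3 * (i : ℕ) : ℕ) : ℂ) ((3 * (j : ℕ) : ℕ) : ℂ) < 2 := by
    have := dist_triangle_left ((3 * (i : ℕ) : ℕ) : ℂ) ((3 * (j : ℕ) : ℕ) : ℂ) (τ i)
    linarith
  rw [dist_eq_norm] at h3
  have h4 : ‖(((3 * (i : ℕ) : ℕ) : ℂ)) - ((3 * (j : ℕ) : ℕ) : ℂ)‖ =
      |((3 * (i : ℕ) : ℕ) : ℝ) - ((3 * (j : ℕ) : ℕ) : ℝ)| := by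
    have : (((3 * (i : ℕ) : ℕ) : ℂ)) - ((3 * (j : ℕ) : ℕ) : ℂ) =
        ((((3 * (i : ℕ) : ℕ) : ℝ) - ((3 * (j : ℕ) : ℕ) : ℝ) : ℝ) : ℂ) := by push_cast; ring
    rw [this, Complex.norm_real, Real.norm_eq_abs]
  rw [h4] at h3
  have h5 : (i : ℕ) ≠ j := fun h => hne (Fin.ext h)
  have h6 : |((3 * (i : ℕ) : ℤ)) - (3 * (j : ℕ) : ℤ)| < 2 := by
    have h7 : ((|((3 * (i : ℕ) : ℤ)) - (3 * (j : ℕ) : ℤ)| : ℤ) : ℝ) < 2 := by
      push_cast
      push_cast at h3
      exact h3
    exact_mod_cast h7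
  rw [abs_lt] at h6
  omega

private lemma La_meas {α : Type*} [MeasurableSpace α] {d : ℕ} {a : α → Fin (d + 1) → ℂ} {b : α → ℂ}
    (ha : Measurable a) (hb : Measurable b) (i : Fin (d + 1)) :
    Measurable (fun x => La (a x) i (b x)) := by
  unfold La
  refine Finset.measurable_fun_prod _ fun j _ => ?_
  have h1 : Measurable fun x => a x i := (measurable_pi_apply i).comp ha
  have h2 : Measurable fun x => a x j := (measurable_pi_apply j).comp ha
  exact ((h1.sub h2).inv).mul (hb.sub h2)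

private lemma main (d : ℕ) : ∀ (m : ℕ) (g : (Fin m → ℂ) → ℂ), Measurable g →
    (∀ j, ∀ᵐ y : Fin m → ℂ, ∃ P : Polynomial ℂ, P.natDegree ≤ d ∧
      ∀ᵐ t : ℂ, g (Function.update y j t) = P.eval t) →
    ∃ P : MvPolynomial (Fin m) ℂ, ∀ᵐ y, g y = ev P y := by
  intro m
  induction m with
  | zero =>
    intro g _ _
    refine ⟨MvPolynomial.C (g 0), Eventually.of_forall fun y => ?_⟩
    have : y = 0 := Subsingleton.elim _ _
    rw [this]
    simp [ev]
  | succ m ih =>
    intro g hg H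
    -- the coordinate 0
    have H0 : ∀ᵐ y' : Fin m → ℂ, ∃ P : Polynomial ℂ, P.natDegree ≤ d ∧
        ∀ᵐ t : ℂ, g (Fin.cons t y') = P.eval t := by
      apply ae_of_rem 0
      filter_upwards [H 0] with y hy
      obtain ⟨P, hP, h1⟩ := hy
      refine ⟨P, hP, ?_⟩
      filter_upwards [h1] with t ht
      rw [← ht, ← Fin.insertNth_removeNth, Fin.insertNth_zero']
    -- the other coordinates
    have H1 : ∀ᵐ t : ℂ, ∃ P : MvPolynomial (Fin m) ℂ, ∀ᵐ y', g (Fin.cons t y') = ev P y' := by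
      have h1 : ∀ᵐ t : ℂ, ∀ i : Fin m, ∀ᵐ y' : Fin m → ℂ, ∃ P : Polynomial ℂ, P.natDegree ≤ d ∧
          ∀ᵐ s : ℂ, g (Fin.cons t (Function.update y' i s)) = P.eval s := by
        rw [ae_all_iff]
        intro i
        have h2 := ae_ins1 0 (H i.succ)
        filter_upwards [h2] with t ht
        filter_upwards [ht] with y' hy'
        obtain ⟨P, hP, h3⟩ := hy'
        refine ⟨P, hP, ?_⟩
        filter_upwards [h3] with s hs
        rw [← hs, Fin.insertNth_zero', Fin.cons_update]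
      filter_upwards [h1] with t ht
      exact ih (fun y' => g (Fin.cons t y')) (hg.comp (meas_cons measurable_const measurable_id)) ht
    -- the identity
    let p : ((Fin (d + 1) → ℂ) × ℂ) → (Fin m → ℂ) → Prop := fun z y' =>
      z.1 ∈ BB d → g (Fin.cons z.2 y') = ∑ i, La z.1 i z.2 * g (Fin.cons (z.1 i) y')
    have hpm : MeasurableSet {x : ((Fin (d + 1) → ℂ) × ℂ) × (Fin m → ℂ) | p x.1 x.2} := by
      have e1 : {x : ((Fin (d + 1) → ℂ) × ℂ) × (Fin m → ℂ) | p x.1 x.2} =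
          {x : ((Fin (d + 1) → ℂ) × ℂ) × (Fin m → ℂ) | x.1.1 ∈ BB d}ᶜ ∪
          {x : ((Fin (d + 1) → ℂ) × ℂ) × (Fin m → ℂ) |
            g (Fin.cons x.1.2 x.2) = ∑ i, La x.1.1 i x.1.2 * g (Fin.cons (x.1.1 i) x.2)} := by
        ext x
        simp only [p, Set.mem_union, Set.mem_compl_iff]
        exact imp_iff_not_or
      rw [e1]
      have m1 : Measurable fun x : ((Fin (d + 1) → ℂ) × ℂ) × (Fin m → ℂ) => x.1.1 :=
        measurable_fst.comp measurable_fst
      have m2 : Measurable fun x : ((Fin (d + 1) → ℂ) × ℂ) × (Fin m → ℂ) => x.1.2 :=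
        measurable_snd.comp measurable_fst
      have m3 : Measurable fun x : ((Fin (d + 1) → ℂ) × ℂ) × (Fin m → ℂ) => x.2 := measurable_snd
      refine MeasurableSet.union (MeasurableSet.compl (m1 (BB_open d).measurableSet)) ?_
      refine measurableSet_eq_fun (hg.comp (meas_cons m2 m3)) ?_
      refine Finset.measurable_fun_sum _ fun i _ => ?_
      exact (La_meas m1 m2 i).mul (hg.comp (meas_cons ((measurable_pi_apply i).comp m1) m3))
    have hp1 : ∀ᵐ y' : Fin m → ℂ, ∀ᵐ z : (Fin (d + 1) → ℂ) × ℂ, p z y' := by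
      filter_upwards [H0] with y' hy'
      obtain ⟨P, hP, h1⟩ := hy'
      have h2 : ∀ᵐ τ : Fin (d + 1) → ℂ, ∀ i, g (Fin.cons (τ i) y') = P.eval (τ i) := by
        rw [ae_all_iff]
        intro i
        exact (Measure.quasiMeasurePreserving_eval (fun _ : Fin (d + 1) => (volume : Measure ℂ)) i).ae h1
      have h3 : ∀ᵐ z : (Fin (d + 1) → ℂ) × ℂ, ∀ i, g (Fin.cons (z.1 i) y') = P.eval (z.1 i) := by
        rw [Measure.volume_eq_prod]
        exact Measure.quasiMeasurePreserving_fst.ae h2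
      have h4 : ∀ᵐ z : (Fin (d + 1) → ℂ) × ℂ, g (Fin.cons z.2 y') = P.eval z.2 := by
        rw [Measure.volume_eq_prod]
        exact Measure.quasiMeasurePreserving_snd.ae h1
      filter_upwards [h3, h4] with z hz1 hz2
      intro hz
      rw [hz2, interp z.1 (BB_inj hz) P hP]
      apply Finset.sum_congr rfl
      intro i _
      rw [hz1 i]
    have hp2 : ∀ᵐ z : (Fin (d + 1) → ℂ) × ℂ, ∀ᵐ y' : Fin m → ℂ, p z y' :=
      (Measure.ae_ae_comm hpm).2 hp1
    rw [Measure.volume_eq_prod] at hp2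
    have hp3 := Measure.ae_ae_of_ae_prod hp2
    have hT : ∀ᵐ τ : Fin (d + 1) → ℂ, ∀ i, ∃ P : MvPolynomial (Fin m) ℂ,
        ∀ᵐ y', g (Fin.cons (τ i) y') = ev P y' := by
      rw [ae_all_iff]
      intro i
      exact (Measure.quasiMeasurePreserving_eval (fun _ : Fin (d + 1) => (volume : Measure ℂ)) i).ae H1
    have hfr : ∃ᵐ τ : Fin (d + 1) → ℂ, τ ∈ BB d := by
      rw [frequently_ae_mem_iff]
      refine ((BB_open d).measure_pos volume ⟨fun i => ((3 * (i : ℕ) : ℕ) : ℂ), ?_⟩).ne'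
      intro i _
      exact Metric.mem_ball_self one_pos
    obtain ⟨τ, hτ, h1, h2⟩ := (hfr.and_eventually (hp3.and hT)).exists
    choose P hP using h2
    refine ⟨∑ i, Lp τ i * MvPolynomial.rename Fin.succ (P i), ?_⟩
    have hQ : ∀ (t : ℂ) (y' : Fin m → ℂ),
        ev (∑ i, Lp τ i * MvPolynomial.rename Fin.succ (P i)) (Fin.cons t y' : Fin (m + 1) → ℂ) =
          ∑ i, La τ i t * ev (P i) y' := by
      intro t y'
      have e0 : ev (∑ i, Lp τ i * MvPolynomial.rename Fin.succ (P i))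
          (Fin.cons t y' : Fin (m + 1) → ℂ) =
          ∑ i, ev (Lp τ i) (Fin.cons t y' : Fin (m + 1) → ℂ) *
            ev (MvPolynomial.rename Fin.succ (P i)) (Fin.cons t y' : Fin (m + 1) → ℂ) := by
        simp [ev]
      rw [e0]
      apply Finset.sum_congr rfl
      intro i _
      rw [Lp_eval, Fin.cons_zero]
      congr 1
      unfold ev
      rw [MvPolynomial.eval_rename]
      rfl
    have h3 : ∀ᵐ t : ℂ, ∀ᵐ y' : Fin m → ℂ, g (Fin.cons t y') =
        ev (∑ i, Lp τ i * MvPolynomial.rename Fin.succ (P i)) (Fin.cons t y' : Fin (m + 1) → ℂ) := by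
      filter_upwards [h1] with t ht
      filter_upwards [ht, ae_all_iff.2 hP] with y' hy' hy''
      rw [hQ, hy' hτ]
      apply Finset.sum_congr rfl
      intro i _
      rw [hy'' i]
    have hms : MeasurableSet {y : Fin (m + 1) → ℂ | g y =
        ev (∑ i, Lp τ i * MvPolynomial.rename Fin.succ (P i)) y} := by
      refine measurableSet_eq_fun hg ?_
      exact (MvPolynomial.continuous_eval _).measurable
    have h4 : ∀ᵐ z : ℂ × (Fin m → ℂ), g ((ej 0).symm z) =
        ev (∑ i, Lp τ i * MvPolynomial.rename Fin.succ (P i)) ((ej 0).symm z) := by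
      rw [Measure.volume_eq_prod]
      refine (Measure.ae_prod_iff_ae_ae (p := fun z : ℂ × (Fin m → ℂ) => g ((ej 0).symm z) =
        ev (∑ i, Lp τ i * MvPolynomial.rename Fin.succ (P i)) ((ej 0).symm z))
        ((ej 0).symm.measurable hms)).2 ?_
      filter_upwards [h3] with t ht
      filter_upwards [ht] with y' hy'
      rw [ej_symm, Fin.insertNth_zero']
      exact hy'
    have h5 := (mpe 0).quasiMeasurePreserving.ae h4
    filter_upwards [h5] with y hy
    simpa using hy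

theorem hHSE : StHSE := by
  intro m d f hf H
  have hfg : f =ᵐ[volume] hf.mk f := hf.ae_eq_mk
  obtain ⟨P, hP⟩ := main d m (hf.mk f) hf.stronglyMeasurable_mk.measurable (by
    intro j
    have h1 : ∀ᵐ y : Fin m → ℂ, ∀ᵐ t : ℂ, f (Function.update y j t) =
        hf.mk f (Function.update y j t) := by
      obtain _ | m' := m
      · exact j.elim0
      · exact ae_upd j hfg
    filter_upwards [H j, h1] with y hy hy'
    obtain ⟨P, hP, h2⟩ := hy
    refine ⟨P, hP, ?_⟩
    filter_upwards [h2, hy'] with t ht ht'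
    rw [← ht', ht])
  refine ⟨P, ?_⟩
  filter_upwards [hP, hfg] with y h1 h2
  rw [h2, h1]

end Pool.Agent.Helper37.KP
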