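import Pool.Agent.Helper52.KP.StM

set_option autoImplicit false

/-! Project KP, module LEV: comparison of levels. -/

namespace Pool.Agent.Helper37.KP

open MeasureTheory Filter Pool.Agent.Helper52.KP
open scoped ContDiff ComplexOrder Topology

private lemma U_open (C : Cone) : IsOpen C.U := by
  have h : Continuous fun z : Fin C.m → ℂ => ev C.Δ z := MvPolynomial.continuous_eval _
  exact isOpen_ne_fun h continuous_const

private lemma ev_cont {m : ℕ} (f : MvPolynomial (Fin m) ℂ) : Continuous fun z : Fin m → ℂ => ev f z :=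
  MvPolynomial.continuous_eval _

private lemma PP_cont {m N : ℕ} (s : Fin N → MvPolynomial (Fin m) ℂ) (lam : Fin N → ℕ) (t : ℝ) :
    Continuous (PP s lam t) := by
  unfold PP
  refine continuous_finsetSum _ fun j _ => ?_
  exact continuous_const.mul ((ev_cont (s j)).norm.pow 2)

private lemma PP_nonneg {m N : ℕ} (s : Fin N → MvPolynomial (Fin m) ℂ) (lam : Fin N → ℕ) (t : ℝ)
    (z : Fin m → ℂ) : 0 ≤ PP s lam t z :=
  Finset.sum_nonneg fun j _ => by positivity

/-- domination -/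
private def Dom {m : ℕ} (Q : ℝ → (Fin m → ℂ) → ℝ) (l : ℕ) (f : MvPolynomial (Fin m) ℂ) : Prop :=
  ∃ B : ℝ, 0 ≤ B ∧ ∀ t : ℝ, 0 ≤ t → ∀ z, Real.exp (t * l) * ‖ev f z‖ ^ 2 ≤ B * Q t z

private lemma dom_span {m : ℕ} (Q : ℝ → (Fin m → ℂ) → ℝ) (l : ℕ)
    (S : Set (MvPolynomial (Fin m) ℂ)) (hS : ∀ f ∈ S, Dom Q l f) :
    ∀ f ∈ Submodule.span ℂ S, Dom Q l f := by
  intro f hf
  induction hf using Submodule.span_induction with
  | mem x hx => exact hS x hx
  | zero => exact ⟨0, le_rfl, fun t _ z => by simp⟩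
  | add x y _ _ hx hy =>
    obtain ⟨B, hB, h1⟩ := hx
    obtain ⟨B', hB', h2⟩ := hy
    refine ⟨2 * B + 2 * B', by positivity, fun t ht z => ?_⟩
    have e1 := h1 t ht z
    have e2 := h2 t ht z
    have e3 : ‖ev (x + y) z‖ ^ 2 ≤ 2 * ‖ev x z‖ ^ 2 + 2 * ‖ev y z‖ ^ 2 := by
      have e4 : ev (x + y) z = ev x z + ev y z := by simp [ev]
      rw [e4]
      have e5 := norm_add_le (ev x z) (ev y z)
      have e6 : ‖ev x z + ev y z‖ ^ 2 ≤ (‖ev x z‖ + ‖ev y z‖) ^ 2 :=
        pow_le_pow_left₀ (norm_nonneg _) e5 2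
      nlinarith [sq_nonneg (‖ev x z‖ - ‖ev y z‖)]
    have e7 : 0 < Real.exp (t * l) := Real.exp_pos _
    calc Real.exp (t * l) * ‖ev (x + y) z‖ ^ 2
        ≤ Real.exp (t * l) * (2 * ‖ev x z‖ ^ 2 + 2 * ‖ev y z‖ ^ 2) :=
          mul_le_mul_of_nonneg_left e3 e7.le
      _ = 2 * (Real.exp (t * l) * ‖ev x z‖ ^ 2) + 2 * (Real.exp (t * l) * ‖ev y z‖ ^ 2) := by ring
      _ ≤ 2 * (B * Q t z) + 2 * (B' * Q t z) := by linarith
      _ = (2 * B + 2 * B') * Q t z := by ring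
  | smul c x _ hx =>
    obtain ⟨B, hB, h1⟩ := hx
    refine ⟨‖c‖ ^ 2 * B, by positivity, fun t ht z => ?_⟩
    have e1 := h1 t ht z
    have e4 : ev (c • x) z = c * ev x z := by simp [ev, MvPolynomial.smul_eval]
    rw [e4, norm_mul, mul_pow]
    have e2 : 0 ≤ ‖c‖ ^ 2 := by positivity
    calc Real.exp (t * l) * (‖c‖ ^ 2 * ‖ev x z‖ ^ 2)
        = ‖c‖ ^ 2 * (Real.exp (t * l) * ‖ev x z‖ ^ 2) := by ring
      _ ≤ ‖c‖ ^ 2 * (B * Q t z) := mul_le_mul_of_nonneg_left e1 e2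
      _ = ‖c‖ ^ 2 * B * Q t z := by ring

private lemma term_le {m N : ℕ} (s : Fin N → MvPolynomial (Fin m) ℂ) (lam : Fin N → ℕ) (t : ℝ)
    (z : Fin m → ℂ) (j : Fin N) : Real.exp (t * lam j) * ‖ev (s j) z‖ ^ 2 ≤ PP s lam t z := by
  unfold PP
  exact Finset.single_le_sum (f := fun j => Real.exp (t * lam j) * ‖ev (s j) z‖ ^ 2)
    (fun j _ => by positivity) (Finset.mem_univ j)

private lemma dom_basis {C : Cone} {r : ℕ} {F : ℕ → ℕ → Submodule ℂ (MvPolynomial (Fin C.m) ℂ)}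
    {k N : ℕ} {s : Fin N → MvPolynomial (Fin C.m) ℂ} {lam : Fin N → ℕ} (hA : Adp C r F k s lam)
    (l : ℕ) : ∀ f ∈ F k l, Dom (PP s lam) l f := by
  intro f hf
  rw [hA.span l] at hf
  refine dom_span (PP s lam) l _ ?_ f hf
  rintro _ ⟨j, hj, rfl⟩
  refine ⟨1, zero_le_one, fun t ht z => ?_⟩
  rw [one_mul]
  refine le_trans ?_ (term_le s lam t z j)
  apply mul_le_mul_of_nonneg_right _ (by positivity)
  apply Real.exp_le_exp.2
  apply mul_le_mul_of_nonneg_left _ ht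
  exact_mod_cast hj

private lemma dom_pow {C : Cone} {r : ℕ} {F : ℕ → ℕ → Submodule ℂ (MvPolynomial (Fin C.m) ℂ)}
    (hF : NF C r F) {N : ℕ} {s : Fin N → MvPolynomial (Fin C.m) ℂ} {lam : Fin N → ℕ}
    (hA : Adp C r F 1 s lam) :
    ∀ k : ℕ, ∀ l, ∀ f ∈ F (k + 1) l, Dom (fun t z => PP s lam t z ^ (k + 1)) l f := by
  intro k
  induction k with
  | zero =>
    intro l f hf
    obtain ⟨B, hB, h⟩ := dom_basis hA l f hf
    refine ⟨B, hB, fun t ht z => ?_⟩
    simp only [zero_add, pow_one]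
    exact h t ht z
  | succ k ih =>
    intro l f hf
    rw [hF.gen (k + 1) l (Nat.succ_pos k)] at hf
    refine dom_span _ l _ ?_ f hf
    rintro _ ⟨i, j, g, g', hij, hg, hg', rfl⟩
    obtain ⟨B, hB, h1⟩ := ih i g hg
    obtain ⟨B', hB', h2⟩ := dom_basis hA j g' hg'
    refine ⟨B * B', by positivity, fun t ht z => ?_⟩
    have e1 := h1 t ht z
    have e2 := h2 t ht z
    have e3 : ev (g * g') z = ev g z * ev g' z := by simp [ev]
    have e4 : Real.exp (t * l) = Real.exp (t * i) * Real.exp (t * j) := by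
      rw [← Real.exp_add, ← hij]
      push_cast
      ring_nf
    rw [e3, e4, norm_mul]
    have hP := PP_nonneg s lam t z
    calc Real.exp (t * i) * Real.exp (t * j) * (‖ev g z‖ * ‖ev g' z‖) ^ 2
        = (Real.exp (t * i) * ‖ev g z‖ ^ 2) * (Real.exp (t * j) * ‖ev g' z‖ ^ 2) := by ring
      _ ≤ (B * PP s lam t z ^ (k + 1)) * (B' * PP s lam t z) :=
          mul_le_mul e1 e2 (by positivity) (by positivity)
      _ = B * B' * PP s lam t z ^ (k + 1 + 1) := by ring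

private lemma mem_adp {C : Cone} {r : ℕ} {F : ℕ → ℕ → Submodule ℂ (MvPolynomial (Fin C.m) ℂ)}
    {k N : ℕ} {s : Fin N → MvPolynomial (Fin C.m) ℂ} {lam : Fin N → ℕ} (hA : Adp C r F k s lam)
    (j : Fin N) : s j ∈ F k (lam j) := by
  rw [hA.span (lam j)]
  exact Submodule.subset_span ⟨j, (le_refl (lam j) : lam j ≤ lam j), rfl⟩

private lemma upper {C : Cone} {r : ℕ} {F : ℕ → ℕ → Submodule ℂ (MvPolynomial (Fin C.m) ℂ)}
    (hF : NF C r F) {k N N' : ℕ} {s : Fin N → MvPolynomial (Fin C.m) ℂ} {lam : Fin N → ℕ}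
    {s' : Fin N' → MvPolynomial (Fin C.m) ℂ} {lam' : Fin N' → ℕ}
    (hA : Adp C r F 1 s lam) (hA' : Adp C r F (k + 1) s' lam') :
    ∃ B : ℝ, 0 < B ∧ ∀ t : ℝ, 0 ≤ t → ∀ z, PP s' lam' t z ≤ B * PP s lam t z ^ (k + 1) := by
  have h : ∀ j, Dom (fun t z => PP s lam t z ^ (k + 1)) (lam' j) (s' j) := fun j =>
    dom_pow hF hA k (lam' j) (s' j) (mem_adp hA' j)
  choose B hB hb using h
  refine ⟨∑ j, B j + 1, ?_, fun t ht z => ?_⟩
  · have : 0 ≤ ∑ j, B j := Finset.sum_nonneg fun j _ => hB j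
    linarith
  · have hP : 0 ≤ PP s lam t z ^ (k + 1) := pow_nonneg (PP_nonneg s lam t z) _
    calc PP s' lam' t z ≤ ∑ j, B j * PP s lam t z ^ (k + 1) :=
          Finset.sum_le_sum fun j _ => hb j t ht z
      _ = (∑ j, B j) * PP s lam t z ^ (k + 1) := by rw [Finset.sum_mul]
      _ ≤ (∑ j, B j + 1) * PP s lam t z ^ (k + 1) :=
          mul_le_mul_of_nonneg_right (by linarith) hP

private lemma pow_mem {C : Cone} {r : ℕ} {F : ℕ → ℕ → Submodule ℂ (MvPolynomial (Fin C.m) ℂ)}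
    (hF : NF C r F) (l : ℕ) (f : MvPolynomial (Fin C.m) ℂ) (hf : f ∈ F 1 l) :
    ∀ k : ℕ, f ^ (k + 1) ∈ F (k + 1) ((k + 1) * l) := by
  intro k
  induction k with
  | zero => simpa using hf
  | succ k ih =>
    have h := hF.mul (k + 1) ((k + 1) * l) 1 l _ _ ih hf
    rw [← pow_succ] at h
    have e : (k + 1) * l + l = (k + 1 + 1) * l := by ring
    rw [e] at h
    exact h

private lemma sum_pow_le {N : ℕ} (a : Fin N → ℝ) (ha : ∀ j, 0 ≤ a j) (k : ℕ) :
    (∑ j, a j) ^ (k + 1) ≤ (N : ℝ) ^ (k + 1) * ∑ j, a j ^ (k + 1) := by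
  rcases Nat.eq_zero_or_pos N with h0 | hN
  · subst h0
    simp
  · obtain ⟨j0, -, hj0⟩ := Finset.exists_max_image (Finset.univ : Finset (Fin N)) a
      ⟨⟨0, hN⟩, Finset.mem_univ _⟩
    have h1 : ∑ j, a j ≤ N * a j0 := by
      calc ∑ j, a j ≤ ∑ _j : Fin N, a j0 := Finset.sum_le_sum fun j hj => hj0 j hj
        _ = N * a j0 := by simp
    have h2 : 0 ≤ ∑ j, a j := Finset.sum_nonneg fun j _ => ha j
    calc (∑ j, a j) ^ (k + 1) ≤ (N * a j0) ^ (k + 1) := pow_le_pow_left₀ h2 h1 _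
      _ = (N : ℝ) ^ (k + 1) * a j0 ^ (k + 1) := by rw [mul_pow]
      _ ≤ (N : ℝ) ^ (k + 1) * ∑ j, a j ^ (k + 1) := by
          apply mul_le_mul_of_nonneg_left _ (by positivity)
          exact Finset.single_le_sum (f := fun j => a j ^ (k + 1))
            (fun j _ => pow_nonneg (ha j) _) (Finset.mem_univ j0)

private lemma lower {C : Cone} {r : ℕ} {F : ℕ → ℕ → Submodule ℂ (MvPolynomial (Fin C.m) ℂ)}
    (hF : NF C r F) {k N N' : ℕ} {s : Fin N → MvPolynomial (Fin C.m) ℂ} {lam : Fin N → ℕ}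
    {s' : Fin N' → MvPolynomial (Fin C.m) ℂ} {lam' : Fin N' → ℕ}
    (hA : Adp C r F 1 s lam) (hA' : Adp C r F (k + 1) s' lam') :
    ∃ B : ℝ, 0 < B ∧ ∀ t : ℝ, 0 ≤ t → ∀ z, PP s lam t z ^ (k + 1) ≤ B * PP s' lam' t z := by
  have h : ∀ j, Dom (PP s' lam') ((k + 1) * lam j) (s j ^ (k + 1)) := fun j =>
    dom_basis hA' _ _ (pow_mem hF (lam j) (s j) (mem_adp hA j) k)
  choose B hB hb using h
  refine ⟨(N : ℝ) ^ (k + 1) * ∑ j, B j + 1, ?_, fun t ht z => ?_⟩
  · have : 0 ≤ ∑ j, B j := Finset.sum_nonneg fun j _ => hB j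
    positivity
  · have hP : 0 ≤ PP s' lam' t z := PP_nonneg s' lam' t z
    have h1 := sum_pow_le (fun j => Real.exp (t * lam j) * ‖ev (s j) z‖ ^ 2)
      (fun j => by positivity) k
    have h2 : ∀ j, (Real.exp (t * lam j) * ‖ev (s j) z‖ ^ 2) ^ (k + 1) ≤ B j * PP s' lam' t z := by
      intro j
      have h3 := hb j t ht z
      have e1 : ev (s j ^ (k + 1)) z = ev (s j) z ^ (k + 1) := by simp [ev]
      have e2 : Real.exp (t * (((k + 1) * lam j : ℕ) : ℝ)) = Real.exp (t * lam j) ^ (k + 1) := by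
        rw [← Real.exp_nat_mul]
        push_cast
        ring_nf
      rw [e1, e2, norm_pow] at h3
      calc (Real.exp (t * lam j) * ‖ev (s j) z‖ ^ 2) ^ (k + 1)
          = Real.exp (t * lam j) ^ (k + 1) * (‖ev (s j) z‖ ^ (k + 1)) ^ 2 := by ring
        _ ≤ B j * PP s' lam' t z := h3
    calc PP s lam t z ^ (k + 1)
        ≤ (N : ℝ) ^ (k + 1) * ∑ j, (Real.exp (t * lam j) * ‖ev (s j) z‖ ^ 2) ^ (k + 1) := h1
      _ ≤ (N : ℝ) ^ (k + 1) * ∑ j, B j * PP s' lam' t z :=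
          mul_le_mul_of_nonneg_left (Finset.sum_le_sum fun j _ => h2 j) (by positivity)
      _ = ((N : ℝ) ^ (k + 1) * ∑ j, B j) * PP s' lam' t z := by rw [← Finset.sum_mul]; ring
      _ ≤ ((N : ℝ) ^ (k + 1) * ∑ j, B j + 1) * PP s' lam' t z :=
          mul_le_mul_of_nonneg_right (by linarith) hP

private lemma span0 {C : Cone} {r : ℕ} {F : ℕ → ℕ → Submodule ℂ (MvPolynomial (Fin C.m) ℂ)}
    (hF : NF C r F) {k N : ℕ} {s : Fin N → MvPolynomial (Fin C.m) ℂ} {lam : Fin N → ℕ}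
    (hA : Adp C r F k s lam) : Submodule.span ℂ (Set.range s) = C.R (C.n * r * k) := by
  rw [← hF.zero k, hA.span 0]
  congr 1
  ext x
  constructor
  · rintro ⟨j, rfl⟩
    exact ⟨j, Nat.zero_le _, rfl⟩
  · rintro ⟨j, -, rfl⟩
    exact ⟨j, rfl⟩

private lemma Xpow {C : Cone} (hC : Good C) (i : Fin C.nx) : ∀ D : ℕ, C.X i ^ D ∈ C.R D := by
  intro D
  induction D with
  | zero => simpa using hC.one
  | succ D ih =>
    rw [pow_succ]
    exact hC.mul D 1 _ _ ih (hC.XR i)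

private lemma PP_pos {C : Cone} (hC : Good C) {D N : ℕ}
    {s : Fin N → MvPolynomial (Fin C.m) ℂ} (lam : Fin N → ℕ)
    (hs : Submodule.span ℂ (Set.range s) = C.R D) (t : ℝ) (z : Fin C.m → ℂ) (hz : z ∈ C.U) :
    0 < PP s lam t z := by
  rcases (PP_nonneg s lam t z).lt_or_eq with h | h
  · exact h
  · exfalso
    have h1 : ∀ j, ev (s j) z = 0 := by
      intro j
      have h2 := term_le s lam t z j
      rw [← h] at h2
      have h3 : 0 < Real.exp (t * lam j) := Real.exp_pos _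
      have h4 : ‖ev (s j) z‖ ^ 2 ≤ 0 := by
        by_contra hcon
        push Not at hcon
        have := mul_pos h3 hcon
        linarith
      have h5 : ‖ev (s j) z‖ = 0 := by
        have h6 : ‖ev (s j) z‖ ^ 2 = 0 := le_antisymm h4 (by positivity)
        exact pow_eq_zero_iff (two_ne_zero) |>.1 h6
      exact norm_eq_zero.1 h5
    have h2 : ∀ f ∈ Submodule.span ℂ (Set.range s), ev f z = 0 := by
      intro f hf
      induction hf using Submodule.span_induction with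
      | mem x hx =>
        obtain ⟨j, rfl⟩ := hx
        exact h1 j
      | zero => simp [ev]
      | add x y _ _ hx hy =>
        have e4 : ev (x + y) z = ev x z + ev y z := by simp [ev]
        rw [e4, hx, hy, add_zero]
      | smul c x _ hx =>
        have e4 : ev (c • x) z = c * ev x z := by simp [ev, MvPolynomial.smul_eval]
        rw [e4, hx, mul_zero]
    have h3 : ∀ i, ev (C.X i) z = 0 := by
      intro i
      have h4 := h2 (C.X i ^ D) (by rw [hs]; exact Xpow hC i D)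
      have e1 : ev (C.X i ^ D) z = ev (C.X i) z ^ D := by simp [ev]
      rw [e1] at h4
      exact eq_zero_of_pow_eq_zero h4
    have h4 := hC.Xpos z hz
    unfold Cone.sz at h4
    simp only [h3, norm_zero, Finset.sum_const_zero, lt_irrefl] at h4

private lemma PP_scl {C : Cone} (hC : Good C) {D N : ℕ}
    {s : Fin N → MvPolynomial (Fin C.m) ℂ} (lam : Fin N → ℕ)
    (hs : Submodule.span ℂ (Set.range s) = C.R D) (t : ℝ) (z : Fin C.m → ℂ) (c : ℂ) :
    PP s lam t (scl C.w c z) = ‖c‖ ^ (2 * D) * PP s lam t z := by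
  unfold PP
  rw [Finset.mul_sum]
  apply Finset.sum_congr rfl
  intro j _
  have h1 : s j ∈ C.R D := by
    rw [← hs]
    exact Submodule.subset_span ⟨j, rfl⟩
  rw [hC.hom D (s j) h1 c z, norm_mul, norm_pow]
  ring

private lemma nu_lint (C : Cone) (f : (Fin C.m → ℂ) → ℝ) (hf : Continuous f) (h0 : ∀ z, 0 ≤ f z) :
    ∫⁻ z in C.U, ENNReal.ofReal (f z) ∂C.nu =
      ∫⁻ z in C.U, ENNReal.ofReal (f z * ‖ev C.J z‖ ^ 2) := by
  have hJ : Continuous fun z : Fin C.m → ℂ => ‖ev C.J z‖ ^ 2 := (ev_cont C.J).norm.pow 2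
  have m1 : Measurable fun z : Fin C.m → ℂ => ENNReal.ofReal (‖ev C.J z‖ ^ 2) :=
    ENNReal.measurable_ofReal.comp hJ.measurable
  have m2 : Measurable fun z : Fin C.m → ℂ => ENNReal.ofReal (f z) :=
    ENNReal.measurable_ofReal.comp hf.measurable
  unfold Cone.nu
  rw [setLIntegral_withDensity_eq_setLIntegral_mul volume m1 m2 (U_open C).measurableSet]
  apply lintegral_congr
  intro z
  simp only [Pi.mul_apply, Function.comp_apply]
  rw [← ENNReal.ofReal_mul (by positivity), mul_comm]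

private lemma ZZ_eq {C : Cone} (hC : Good C) (hDIF : StDIF) {D N : ℕ} (hD : 0 < D)
    {s : Fin N → MvPolynomial (Fin C.m) ℂ} (lam : Fin N → ℕ)
    (hs : Submodule.span ℂ (Set.range s) = C.R D) (t : ℝ) :
    ENNReal.ofReal (C.ZZ s lam t) = ∫⁻ z in C.U, ENNReal.ofReal (Real.exp (-PP s lam t z)) ∂C.nu := by
  obtain ⟨-, h2, -, -⟩ := hDIF C hC D N hD s lam hs t
  have h3 := (h2 0).const_mul (1 / 2)
  have h4 : IntegrableOn (fun z => Real.exp (-PP s lam t z) * ‖ev C.J z‖ ^ 2) C.U := by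
    refine h3.congr ?_
    filter_upwards with z
    simp only [pow_zero]
    ring
  have hcont : Continuous fun z => Real.exp (-PP s lam t z) :=
    Real.continuous_exp.comp (PP_cont s lam t).neg
  rw [nu_lint C (fun z => Real.exp (-PP s lam t z)) hcont (fun z => (Real.exp_pos _).le)]
  unfold Cone.ZZ
  exact ofReal_integral_eq_lintegral_ofReal h4
    (by filter_upwards with z using mul_nonneg (Real.exp_pos _).le (by positivity))

/-- the weight of the radial integral -/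
private noncomputable def wt (a : ℝ) (s : ℝ) : ENNReal := ENNReal.ofReal (a * s ^ (a - 1))

private lemma wt_meas (a : ℝ) : Measurable (wt a) := by
  unfold wt
  exact ENNReal.measurable_ofReal.comp (measurable_const.mul (measurable_id.pow_const _))

private noncomputable def gam (a b : ℝ) (k : ℕ) : ENNReal :=
  ∫⁻ s in Set.Ioi (0 : ℝ), ENNReal.ofReal (Real.exp (-(b * s ^ (k + 1)))) * wt a s

private lemma gam_pos {a : ℝ} (ha : 0 < a) (b : ℝ) (k : ℕ) : 0 < gam a b k := by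
  unfold gam
  rw [setLIntegral_pos_iff]
  · have h1 : Function.support (fun s : ℝ => ENNReal.ofReal (Real.exp (-(b * s ^ (k + 1)))) * wt a s) ∩
        Set.Ioi (0 : ℝ) = Set.Ioi (0 : ℝ) := by
      rw [Set.inter_eq_right]
      intro s hs
      rw [Function.mem_support]
      apply ne_of_gt
      unfold wt
      apply ENNReal.mul_pos
      · exact (ENNReal.ofReal_pos.2 (Real.exp_pos _)).ne'
      · exact (ENNReal.ofReal_pos.2 (mul_pos ha (Real.rpow_pos_of_pos hs _))).ne'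
    rw [h1]
    simp
  · refine Measurable.mul ?_ (wt_meas a)
    exact ENNReal.measurable_ofReal.comp (Real.continuous_exp.comp
      ((continuous_const.mul (continuous_id.pow _)).neg)).measurable

private lemma gam_fin {a b : ℝ} (ha : 0 < a) (hb : 0 < b) (k : ℕ) : gam a b k ≠ ⊤ := by
  have h1 : IntegrableOn (fun x : ℝ => x ^ (a - 1) * Real.exp (-b * x ^ ((k + 1 : ℕ) : ℝ)))
      (Set.Ioi 0) := by
    apply integrableOn_rpow_mul_exp_neg_mul_rpow
    · linarith
    · push_cast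
      have : (0 : ℝ) ≤ k := Nat.cast_nonneg k
      linarith
    · exact hb
  have h2 := h1.const_mul a
  have h3 := h2.lintegral_lt_top
  refine (lt_of_le_of_lt (le_of_eq ?_) h3).ne
  unfold gam
  apply setLIntegral_congr_fun measurableSet_Ioi
  intro s hs
  simp only
  unfold wt
  rw [← ENNReal.ofReal_mul (Real.exp_pos _).le, Real.rpow_natCast]
  congr 1
  ring_nf

private lemma sca {C : Cone} (hC : Good C) (hSCA : StSCA) (hDIF : StDIF) {D N : ℕ} (hD : 0 < D)
    {s : Fin N → MvPolynomial (Fin C.m) ℂ} (lam : Fin N → ℕ)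
    (hs : Submodule.span ℂ (Set.range s) = C.R D) (t : ℝ) :
    C.nu {z | z ∈ C.U ∧ PP s lam t z < 1} ≠ ⊤ ∧
    ∀ (b : ℝ) (k : ℕ), ∫⁻ z in C.U, ENNReal.ofReal (Real.exp (-(b * PP s lam t z ^ (k + 1)))) ∂C.nu =
      gam ((C.m : ℝ) / (2 * D : ℕ)) b k * C.nu {z | z ∈ C.U ∧ PP s lam t z < 1} := by
  have hfin : C.nu {z | z ∈ C.U ∧ PP s lam t z < 1} ≠ ⊤ := by
    have h1 := ZZ_eq hC hDIF hD lam hs t
    have hm : MeasurableSet {z : Fin C.m → ℂ | z ∈ C.U ∧ PP s lam t z < 1} :=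
      ((U_open C).inter (isOpen_lt (PP_cont s lam t) continuous_const)).measurableSet
    have h2 : ENNReal.ofReal (Real.exp (-1)) * C.nu {z | z ∈ C.U ∧ PP s lam t z < 1} ≤
        ∫⁻ z in C.U, ENNReal.ofReal (Real.exp (-PP s lam t z)) ∂C.nu := by
      rw [← setLIntegral_const]
      refine le_trans (setLIntegral_mono' (g := fun z => ENNReal.ofReal (Real.exp (-PP s lam t z)))
        hm fun z hz => ?_) (lintegral_mono_set fun z hz => hz.1)
      apply ENNReal.ofReal_le_ofReal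
      apply Real.exp_le_exp.2
      have := hz.2
      linarith
    rw [← h1] at h2
    intro htop
    rw [htop, ENNReal.mul_top] at h2
    · exact ENNReal.ofReal_ne_top (top_le_iff.1 h2)
    · exact (ENNReal.ofReal_pos.2 (Real.exp_pos _)).ne'
  refine ⟨hfin, fun b k => ?_⟩
  have hD' : (0 : ℝ) < ((2 * D : ℕ) : ℝ) := by
    have : 0 < 2 * D := by omega
    exact_mod_cast this
  have hm0 : (0 : ℝ) < C.m + 0 := by
    have h1 := hC.hm
    have h2 := hC.hn
    have : 0 < C.m := by omega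
    have h3 : (0 : ℝ) < C.m := by exact_mod_cast this
    linarith
  have h1 := hSCA C hC ((2 * D : ℕ) : ℝ) 0 hD' hm0 (PP s lam t) (fun _ => 1)
    (PP_cont s lam t).measurable measurable_const (by
      intro z hz
      refine ⟨PP_pos hC lam hs t z hz, fun c _ => ⟨?_, ?_⟩⟩
      · rw [PP_scl hC lam hs t z c, Real.rpow_natCast]
      · rw [Real.rpow_zero, ENNReal.ofReal_one, mul_one])
    (by
      rw [setLIntegral_const, one_mul]
      exact hfin)
    (fun x => ENNReal.ofReal (Real.exp (-(b * x ^ (k + 1)))))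
    (ENNReal.measurable_ofReal.comp (Real.continuous_exp.comp
      ((continuous_const.mul (continuous_id.pow _)).neg)).measurable)
  simp only [mul_one, setLIntegral_const, one_mul, add_zero] at h1
  rw [h1]
  rfl

theorem hLEV (hDIF : StDIF) (hSCA : StSCA) : StLEV := by
  intro C hC r F hF k hk N N' s lam s' lam' hA hA'
  obtain ⟨k, rfl⟩ : ∃ k', k = k' + 1 := ⟨k - 1, by omega⟩
  obtain ⟨B1, hB1, h1⟩ := upper hF hA hA'
  obtain ⟨B2, hB2, h2⟩ := lower hF hA hA'
  have hn := hC.hn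
  have hr := hF.hr
  have hD : 0 < C.n * r * 1 := by positivity
  have hD' : 0 < C.n * r * (k + 1) := by positivity
  have hs := span0 hF hA
  have hs' := span0 hF hA'
  obtain ⟨a, ha⟩ : ∃ a : ℝ, a = (C.m : ℝ) / (2 * (C.n * r * 1) : ℕ) := ⟨_, rfl⟩
  have ha0 : 0 < a := by
    rw [ha]
    have h3 : 0 < C.m := by
      have := hC.hm
      omega
    have h4 : 0 < 2 * (C.n * r * 1) := by positivity
    have h5 : (0 : ℝ) < C.m := by exact_mod_cast h3
    have h6 : (0 : ℝ) < ((2 * (C.n * r * 1) : ℕ) : ℝ) := by exact_mod_cast h4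
    exact div_pos h5 h6
  -- the three constants
  obtain ⟨g0, hg0, hg0'⟩ : ∃ g : ℝ, 0 < g ∧ gam a 1 0 = ENNReal.ofReal g :=
    ⟨(gam a 1 0).toReal, ENNReal.toReal_pos (gam_pos ha0 1 0).ne' (gam_fin ha0 one_pos 0),
      (ENNReal.ofReal_toReal (gam_fin ha0 one_pos 0)).symm⟩
  obtain ⟨g1, hg1, hg1'⟩ : ∃ g : ℝ, 0 < g ∧ gam a (1 / B2) k = ENNReal.ofReal g :=
    ⟨(gam a (1 / B2) k).toReal, ENNReal.toReal_pos (gam_pos ha0 _ k).ne'
      (gam_fin ha0 (by positivity) k), (ENNReal.ofReal_toReal (gam_fin ha0 (by positivity) k)).symm⟩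
  obtain ⟨g2, hg2, hg2'⟩ : ∃ g : ℝ, 0 < g ∧ gam a B1 k = ENNReal.ofReal g :=
    ⟨(gam a B1 k).toReal, ENNReal.toReal_pos (gam_pos ha0 _ k).ne'
      (gam_fin ha0 hB1 k), (ENNReal.ofReal_toReal (gam_fin ha0 hB1 k)).symm⟩
  refine ⟨g0 / g2 + g1 / g0 + Real.exp 1 + g0, by positivity, fun t ht => ?_⟩
  obtain ⟨hfin, hsca⟩ := sca hC hSCA hDIF hD lam hs t
  rw [← ha] at hsca
  obtain ⟨v, hv, hv'⟩ : ∃ v : ℝ, 0 ≤ v ∧ C.nu {z | z ∈ C.U ∧ PP s lam t z < 1} = ENNReal.ofReal v :=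
    ⟨_, ENNReal.toReal_nonneg, (ENNReal.ofReal_toReal hfin).symm⟩
  have hZ0 := (hDIF C hC _ N hD s lam hs t).1
  have hZ0' := (hDIF C hC _ N' hD' s' lam' hs' t).1
  have eZ := ZZ_eq hC hDIF hD lam hs t
  have eZ' := ZZ_eq hC hDIF hD' lam' hs' t
  have c0 : C.ZZ s lam t = g0 * v := by
    have h3 := hsca 1 0
    simp only [zero_add, pow_one, one_mul] at h3
    rw [h3, hg0', hv', ← ENNReal.ofReal_mul hg0.le] at eZ
    exact (ENNReal.ofReal_eq_ofReal_iff hZ0.le (mul_nonneg hg0.le hv)).1 eZ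
  have c1 : C.ZZ s' lam' t ≤ g1 * v := by
    have h3 := hsca (1 / B2) k
    have h4 : ∫⁻ z in C.U, ENNReal.ofReal (Real.exp (-PP s' lam' t z)) ∂C.nu ≤
        ∫⁻ z in C.U, ENNReal.ofReal (Real.exp (-(1 / B2 * PP s lam t z ^ (k + 1)))) ∂C.nu := by
      apply lintegral_mono
      intro z
      apply ENNReal.ofReal_le_ofReal
      apply Real.exp_le_exp.2
      have h5 := h2 t ht z
      have h6 : 1 / B2 * PP s lam t z ^ (k + 1) ≤ PP s' lam' t z := by
        rw [div_mul_eq_mul_div, one_mul, div_le_iff₀ hB2]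
        linarith
      linarith
    rw [← eZ', h3, hg1', hv', ← ENNReal.ofReal_mul hg1.le] at h4
    exact (ENNReal.ofReal_le_ofReal_iff (mul_nonneg hg1.le hv)).1 h4
  have c2 : g2 * v ≤ C.ZZ s' lam' t := by
    have h3 := hsca B1 k
    have h4 : ∫⁻ z in C.U, ENNReal.ofReal (Real.exp (-(B1 * PP s lam t z ^ (k + 1)))) ∂C.nu ≤
        ∫⁻ z in C.U, ENNReal.ofReal (Real.exp (-PP s' lam' t z)) ∂C.nu := by
      apply lintegral_mono
      intro z
      apply ENNReal.ofReal_le_ofReal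
      apply Real.exp_le_exp.2
      have h5 := h1 t ht z
      linarith
    rw [← eZ', h3, hg2', hv', ← ENNReal.ofReal_mul hg2.le] at h4
    exact (ENNReal.ofReal_le_ofReal_iff hZ0'.le).1 h4
  have e1 : 0 < Real.exp 1 := Real.exp_pos 1
  have p1 : 0 < g0 / g2 := by positivity
  have p2 : 0 < g1 / g0 := by positivity
  refine ⟨?_, ?_, ?_, ?_⟩
  · calc C.ZZ s lam t = g0 / g2 * (g2 * v) := by rw [c0]; field_simp
      _ ≤ g0 / g2 * C.ZZ s' lam' t := mul_le_mul_of_nonneg_left c2 p1.le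
      _ ≤ _ := mul_le_mul_of_nonneg_right (by linarith) hZ0'.le
  · calc C.ZZ s' lam' t ≤ g1 * v := c1
      _ = g1 / g0 * C.ZZ s lam t := by rw [c0]; field_simp
      _ ≤ _ := mul_le_mul_of_nonneg_right (by linarith) hZ0.le
  · have hm : MeasurableSet {z : Fin C.m → ℂ | z ∈ C.U ∧ PP s lam t z ≤ 1} :=
      (U_open C).measurableSet.inter (measurableSet_le (PP_cont s lam t).measurable measurable_const)
    have h3 : ENNReal.ofReal (Real.exp (-1)) * C.nu {z | z ∈ C.U ∧ PP s lam t z ≤ 1} ≤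
        ENNReal.ofReal (C.ZZ s lam t) := by
      rw [eZ, ← setLIntegral_const]
      refine le_trans (setLIntegral_mono' (g := fun z => ENNReal.ofReal (Real.exp (-PP s lam t z)))
        hm fun z hz => ?_) (lintegral_mono_set fun z hz => hz.1)
      apply ENNReal.ofReal_le_ofReal
      apply Real.exp_le_exp.2
      have := hz.2
      linarith
    have h4 : C.nu {z | z ∈ C.U ∧ PP s lam t z ≤ 1} ≤ ENNReal.ofReal (Real.exp 1 * C.ZZ s lam t) := by
      calc C.nu {z | z ∈ C.U ∧ PP s lam t z ≤ 1}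
          = ENNReal.ofReal (Real.exp 1) * (ENNReal.ofReal (Real.exp (-1)) *
              C.nu {z | z ∈ C.U ∧ PP s lam t z ≤ 1}) := by
            rw [← mul_assoc, ← ENNReal.ofReal_mul e1.le, ← Real.exp_add]
            norm_num
        _ ≤ ENNReal.ofReal (Real.exp 1) * ENNReal.ofReal (C.ZZ s lam t) := by
            gcongr
        _ = _ := by rw [← ENNReal.ofReal_mul e1.le]
    refine h4.trans (ENNReal.ofReal_le_ofReal ?_)
    exact mul_le_mul_of_nonneg_right (by linarith) hZ0.le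
  · rw [c0, ENNReal.ofReal_mul hg0.le, ← hv']
    have h5 : C.nu {z | z ∈ C.U ∧ PP s lam t z < 1} ≤ C.nu {z | z ∈ C.U ∧ PP s lam t z ≤ 1} :=
      measure_mono fun z hz => ⟨hz.1, hz.2.le⟩
    have h6 : ENNReal.ofReal g0 ≤ ENNReal.ofReal (g0 / g2 + g1 / g0 + Real.exp 1 + g0) :=
      ENNReal.ofReal_le_ofReal (by linarith)
    exact mul_le_mul' h6 h5

end Pool.Agent.Helper37.KP
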