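import Pool.Agent.Helper68.KP.StS

set_option autoImplicit false

/-! Project KP, module LGF: the logarithm of a positive automorphism. -/

namespace Pool.Agent.Helper37.KP

open Pool.Agent.Helper52.KP Pool.Agent.Helper68.KP Filter Topology Matrix

section

variable {A : Type} [CommRing A] [Algebra ℂ A] {E : ℕ → Submodule ℂ A} {ip : A → A → ℂ}

private lemma ip_addR (h : HF E ip) {k : ℕ} (f g g' : E k) :
    ip f (g + g' : E k) = ip f g + ip f g' := by
  have h1 := h.symm k (g + g' : E k) (g + g' : E k).2 f f.2
  have h2 := h.add k g g.2 g' g'.2 f f.2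
  have h3 := h.symm k g g.2 f f.2
  have h4 := h.symm k g' g'.2 f f.2
  rw [h1, h3, h4, ← star_add, ← h2]
  rfl

private lemma ip_addL (h : HF E ip) {k : ℕ} (f f' g : E k) :
    ip (f + f' : E k) g = ip f g + ip f' g := h.add k f f.2 f' f'.2 g g.2

private lemma ip_smulL (h : HF E ip) {k : ℕ} (c : ℂ) (f g : E k) :
    ip (c • f : E k) g = c * ip f g := h.smul k c f f.2 g g.2

private lemma ip_smulR (h : HF E ip) {k : ℕ} (c : ℂ) (f g : E k) :
    ip f (c • g : E k) = star c * ip f g := by
  have h1 := h.symm k (c • g : E k) (c • g : E k).2 f f.2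
  have h2 := h.smul k c g g.2 f f.2
  have h3 := h.symm k g g.2 f f.2
  rw [h1, h3, ← star_mul', ← h2]
  rfl

private lemma ip_zeroL (h : HF E ip) {k : ℕ} (g : E k) : ip (0 : E k) g = 0 := by
  have h1 := ip_smulL h (0 : ℂ) (0 : E k) g
  rw [zero_smul, zero_mul] at h1
  exact h1

private lemma ip_zeroR (h : HF E ip) {k : ℕ} (g : E k) : ip g (0 : E k) = 0 := by
  have h1 := ip_smulR h (0 : ℂ) g (0 : E k)
  rw [zero_smul, star_zero, zero_mul] at h1
  exact h1

/-- eigenvectors of `P` are eigenvectors of `W` -/
private lemma eig_all {k n : ℕ} (b : Module.Basis (Fin n) ℂ (E k)) (w : Fin n → ℝ)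
    (P W : E k →ₗ[ℂ] E k) (hP : ∀ j, P (b j) = (w j : ℂ) • b j)
    (hW : ∀ j, W (b j) = ((-Real.log (w j) : ℝ) : ℂ) • b j) (f : E k) (a : ℝ)
    (hf : P f = (a : ℂ) • f) : W f = ((-Real.log a : ℝ) : ℂ) • f := by
  have h1 : ∀ j, b.repr f j * (w j : ℂ) = b.repr f j * (a : ℂ) := by
    have h2 : ∑ j, (b.repr f j * (w j : ℂ)) • b j = ∑ j, (b.repr f j * (a : ℂ)) • b j := by
      calc ∑ j, (b.repr f j * (w j : ℂ)) • b j = ∑ j, b.repr f j • P (b j) := by
            apply Finset.sum_congr rfl
            intro j _
            rw [hP, smul_smul]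
        _ = P (∑ j, b.repr f j • b j) := by rw [map_sum]; simp only [map_smul]
        _ = P f := by rw [b.sum_repr f]
        _ = (a : ℂ) • ∑ j, b.repr f j • b j := by rw [hf, b.sum_repr f]
        _ = ∑ j, (b.repr f j * (a : ℂ)) • b j := by
            rw [Finset.smul_sum]
            apply Finset.sum_congr rfl
            intro j _
            rw [smul_smul, mul_comm]
    intro j
    have h3 := congrArg (fun x => b.repr x j) h2
    simpa [Finsupp.single_apply] using h3
  calc W f = W (∑ j, b.repr f j • b j) := by rw [b.sum_repr f]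
    _ = ∑ j, b.repr f j • W (b j) := by rw [map_sum]; simp only [map_smul]
    _ = ∑ j, ((-Real.log a : ℝ) : ℂ) • (b.repr f j • b j) := by
        apply Finset.sum_congr rfl
        intro j _
        rw [hW, smul_smul, smul_smul]
        by_cases h0 : b.repr f j = 0
        · rw [h0]; simp
        · have h4 : (w j : ℂ) = a := mul_left_cancel₀ h0 (h1 j)
          have h5 : w j = a := by exact_mod_cast h4
          rw [h5, mul_comm]
    _ = ((-Real.log a : ℝ) : ℂ) • f := by rw [← Finset.smul_sum, b.sum_repr f]

end

theorem hLGF (hEIG : StEIG) : StLGF := by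
  intro A _ _ E ip M hSG hHF σ σ' hσ hσ' hAD
  classical
  obtain ⟨P, hPdef⟩ : ∃ P : ∀ k, E k →ₗ[ℂ] E k, P = fun k => σ' k ∘ₗ σ k := ⟨_, rfl⟩
  have hPapp : ∀ k (f : E k), P k f = σ' k (σ k f) := by
    intro k f
    rw [hPdef]
    rfl
  have hAD' : ∀ k (f g : E k), ip (σ' k f) g = ip f (σ k g) := by
    intro k f g
    have h1 := hHF.symm k g g.2 (σ' k f) (σ' k f).2
    have h2 := hHF.symm k (σ k g) (σ k g).2 f f.2
    rw [h1, h2, hAD k g f]
  have hPip : ∀ k (f g : E k), ip (P k f) g = ip (σ k f) (σ k g) := by
    intro k f g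
    rw [hPapp, hAD']
  have hPSA : SA ip P := by
    intro k f g
    rw [hPip, hAD k f (σ k g), hPapp]
  have hPmul : ∀ k k' (f : E k) (f' : E k') (g : E (k + k')), (g : A) = f * f' →
      (P (k + k') g : A) = P k f * P k' f' := by
    intro k k' f f' g hg
    rw [hPapp, hPapp, hPapp]
    exact hσ'.2 k k' (σ k f) (σ k' f') (σ (k + k') g) (hσ.2 k k' f f' g hg)
  -- bases of eigenvectors
  have hbas : ∀ k, ∃ (b : Module.Basis (Fin (Module.finrank ℂ (E k))) ℂ (E k))
      (w : Fin (Module.finrank ℂ (E k)) → ℝ), (∀ i j, ip (b i) (b j) = if i = j then 1 else 0) ∧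
      (∀ j, P k (b j) = (w j : ℂ) • b j) ∧ ∀ j, 0 < w j := by
    intro k
    obtain ⟨e, w, h1, h2, h3, h4, -⟩ := hEIG A E ip k (hSG.fd k) hHF P hPSA
    have hb : ∀ j, (Module.Basis.mk h3 (by rw [h4])) j = e j := fun j => Module.Basis.mk_apply _ _ j
    refine ⟨Module.Basis.mk h3 (by rw [h4]), w, fun i j => ?_, fun j => ?_, fun j => ?_⟩
    · rw [hb, hb]
      exact h1 i j
    · rw [hb]
      exact h2 j
    · have h5 : ip (P k (e j)) (e j) = (w j : ℂ) := by
        rw [h2 j, ip_smulL hHF, h1 j j, if_pos rfl, mul_one]
      have h6 : (e j) ≠ 0 := by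
        intro h7
        have h8 := h1 j j
        rw [if_pos rfl, h7, ip_zeroL hHF] at h8
        exact zero_ne_one h8
      have h7 : σ k (e j) ≠ 0 := by
        intro h8
        apply h6
        apply (hσ.1 k).1
        rw [h8, map_zero]
      have h8 : ((σ k (e j) : E k) : A) ≠ 0 := fun h => h7 (Subtype.ext h)
      have h9 := hHF.pos k (σ k (e j)) (σ k (e j)).2 h8
      rw [← hPip, h5] at h9
      simpa using h9
  choose b w hb1 hb2 hb3 using hbas
  obtain ⟨W, hWdef⟩ : ∃ W : ∀ k, E k →ₗ[ℂ] E k,
      W = fun k => (b k).constr ℂ (fun j => ((-Real.log (w k j) : ℝ) : ℂ) • b k j) := ⟨_, rfl⟩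
  have hWb : ∀ k j, W k (b k j) = ((-Real.log (w k j) : ℝ) : ℂ) • b k j := by
    intro k j
    rw [hWdef]
    exact Module.Basis.constr_basis _ _ _ _
  have hWall : ∀ k (f : E k) (a : ℝ), P k f = (a : ℂ) • f → W k f = ((-Real.log a : ℝ) : ℂ) • f :=
    fun k f a hf => eig_all (b k) (w k) (P k) (W k) (hb2 k) (hWb k) f a hf
  have htop : ∀ k (f : E k), f ∈ Submodule.span ℂ (Set.range (b k)) := by
    intro k f
    rw [(b k).span_eq]
    exact Submodule.mem_top
  refine ⟨W, ?_, ?_, ?_⟩
  · -- derivation
    intro k k' f f' g hg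
    have main : ∀ f ∈ Submodule.span ℂ (Set.range (b k)), ∀ f' ∈ Submodule.span ℂ (Set.range (b k')),
        ∀ g : E (k + k'), (g : A) = f * f' → (W (k + k') g : A) = W k f * f' + f * W k' f' := by
      intro f hf
      induction hf using Submodule.span_induction with
      | mem x hx =>
        obtain ⟨i, rfl⟩ := hx
        intro f' hf'
        induction hf' using Submodule.span_induction with
        | mem y hy =>
          obtain ⟨j, rfl⟩ := hy
          intro g hg
          have h1 : P (k + k') g = ((w k i * w k' j : ℝ) : ℂ) • g := by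
            apply Subtype.ext
            rw [hPmul k k' _ _ g hg, hb2, hb2]
            simp only [Submodule.coe_smul]
            rw [hg, Algebra.smul_def, Algebra.smul_def, Algebra.smul_def, Complex.ofReal_mul, map_mul]
            ring
          have h2 := hWall (k + k') g _ h1
          rw [h2, hWb, hWb, Real.log_mul (hb3 k i).ne' (hb3 k' j).ne']
          simp only [Submodule.coe_smul]
          rw [hg, Algebra.smul_def, Algebra.smul_def, Algebra.smul_def, neg_add, Complex.ofReal_add,
            map_add]
          ring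
        | zero =>
          intro g hg
          have h0 : g = 0 := by
            apply Subtype.ext
            rw [hg]
            simp
          rw [h0, map_zero, map_zero]
          simp
        | add y z _ _ hy hz =>
          intro g hg
          have m1 : ((b k i : A) * (y : A)) ∈ E (k + k') := hSG.mul k k' _ _ (b k i).2 y.2
          have m2 : ((b k i : A) * (z : A)) ∈ E (k + k') := hSG.mul k k' _ _ (b k i).2 z.2
          have h0 : g = ⟨_, m1⟩ + ⟨_, m2⟩ := by
            apply Subtype.ext
            rw [hg]
            simp only [Submodule.coe_add]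
            ring
          rw [h0, map_add, map_add]
          simp only [Submodule.coe_add]
          rw [hy ⟨_, m1⟩ rfl, hz ⟨_, m2⟩ rfl]
          ring
        | smul c y _ hy =>
          intro g hg
          have m1 : ((b k i : A) * (y : A)) ∈ E (k + k') := hSG.mul k k' _ _ (b k i).2 y.2
          have h0 : g = c • ⟨_, m1⟩ := by
            apply Subtype.ext
            rw [hg]
            simp only [Submodule.coe_smul]
            rw [Algebra.smul_def, Algebra.smul_def]
            ring
          rw [h0, map_smul, map_smul]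
          simp only [Submodule.coe_smul]
          rw [hy ⟨_, m1⟩ rfl]
          simp only [Algebra.smul_def]
          ring
      | zero =>
        intro f' _ g hg
        have h0 : g = 0 := by
          apply Subtype.ext
          rw [hg]
          simp
        rw [h0, map_zero, map_zero]
        simp
      | add y z _ _ hy hz =>
        intro f' hf' g hg
        have m1 : ((y : A) * (f' : A)) ∈ E (k + k') := hSG.mul k k' _ _ y.2 f'.2
        have m2 : ((z : A) * (f' : A)) ∈ E (k + k') := hSG.mul k k' _ _ z.2 f'.2
        have h0 : g = ⟨_, m1⟩ + ⟨_, m2⟩ := by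
          apply Subtype.ext
          rw [hg]
          simp only [Submodule.coe_add]
          ring
        rw [h0, map_add, map_add]
        simp only [Submodule.coe_add]
        rw [hy f' hf' ⟨_, m1⟩ rfl, hz f' hf' ⟨_, m2⟩ rfl]
        ring
      | smul c y _ hy =>
        intro f' hf' g hg
        have m1 : ((y : A) * (f' : A)) ∈ E (k + k') := hSG.mul k k' _ _ y.2 f'.2
        have h0 : g = c • ⟨_, m1⟩ := by
          apply Subtype.ext
          rw [hg]
          simp only [Submodule.coe_smul]
          rw [Algebra.smul_def, Algebra.smul_def]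
          ring
        rw [h0, map_smul, map_smul]
        simp only [Submodule.coe_smul]
        rw [hy f' hf' ⟨_, m1⟩ rfl]
        simp only [Algebra.smul_def]
        ring
    exact main f (htop k f) f' (htop k' f') g hg
  · -- self-adjoint
    intro k f g
    have main : ∀ f ∈ Submodule.span ℂ (Set.range (b k)), ∀ g ∈ Submodule.span ℂ (Set.range (b k)),
        ip (W k f) g = ip f (W k g) := by
      intro f hf
      induction hf using Submodule.span_induction with
      | mem x hx =>
        obtain ⟨i, rfl⟩ := hx
        intro g hg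
        induction hg using Submodule.span_induction with
        | mem y hy =>
          obtain ⟨j, rfl⟩ := hy
          rw [hWb, hWb, ip_smulL hHF, ip_smulR hHF, hb1]
          by_cases hij : i = j
          · subst hij
            simp
          · rw [if_neg hij, mul_zero, mul_zero]
        | zero => rw [map_zero, ip_zeroR hHF, ip_zeroR hHF]
        | add y z _ _ hy hz => rw [map_add, ip_addR hHF, ip_addR hHF, hy, hz]
        | smul c y _ hy => rw [map_smul, ip_smulR hHF, ip_smulR hHF, hy]
      | zero =>
        intro g _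
        rw [map_zero, ip_zeroL hHF, ip_zeroL hHF]
      | add y z _ _ hy hz =>
        intro g hg
        rw [map_add, ip_addL hHF, ip_addL hHF, hy g hg, hz g hg]
      | smul c y _ hy =>
        intro g hg
        rw [map_smul, ip_smulL hHF, ip_smulL hHF, hy g hg]
    exact main f (htop k f) g (htop k g)
  · -- coordinates
    intro k N φ S B hφ hS hB
    have hfd := hSG.fd k
    have hN : N = Module.finrank ℂ (E k) := by
      have h1 := φ.finrank_eq
      simp only [Module.finrank_fin_fun] at h1
      exact h1.symm
    subst hN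
    -- the matrix of the adjoint
    have hS' : ∀ f, φ (σ' k f) = Sᴴ *ᵥ φ f := by
      intro g
      have h1 : ∀ x : Fin (Module.finrank ℂ (E k)) → ℂ,
          ∑ i, x i * star (φ (σ' k g) i) = ∑ i, x i * star ((Sᴴ *ᵥ φ g) i) := by
        intro x
        have h2 := hAD k (φ.symm x) g
        rw [hφ, hφ, hS, φ.apply_symm_apply] at h2
        rw [← h2]
        simp only [Matrix.mulVec, dotProduct, Matrix.conjTranspose_apply, star_sum, star_mul', star_star,
          Finset.sum_mul, Finset.mul_sum]
        rw [Finset.sum_comm]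
        apply Finset.sum_congr rfl
        intro i _
        apply Finset.sum_congr rfl
        intro j _
        ring
      funext i
      have h2 := h1 (Pi.single i 1)
      simp only [Pi.single_apply, ite_mul, one_mul, zero_mul, Finset.sum_ite_eq', Finset.mem_univ,
        if_true] at h2
      exact star_injective h2
    have hSS : ∀ f, φ (P k f) = (Sᴴ * S) *ᵥ φ f := by
      intro f
      rw [hPapp, hS', hS, Matrix.mulVec_mulVec]
    obtain ⟨c, hc⟩ : ∃ c : Module.Basis (Fin (Module.finrank ℂ (E k))) ℂ
        (Fin (Module.finrank ℂ (E k)) → ℂ), c = (b k).map φ := ⟨_, rfl⟩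
    have hcj : ∀ j, c j = φ (b k j) := by
      intro j
      rw [hc]
      exact Module.Basis.map_apply _ _ _
    obtain ⟨U, hU⟩ : ∃ U : Matrix (Fin (Module.finrank ℂ (E k))) (Fin (Module.finrank ℂ (E k))) ℂ,
      U = (Pi.basisFun ℂ _).toMatrix c := ⟨_, rfl⟩
    have hUu : IsUnit U := by
      have h1 : U * c.toMatrix (Pi.basisFun ℂ _) = 1 := by
        rw [hU]
        exact Module.Basis.toMatrix_mul_toMatrix_flip _ _
      exact IsUnit.of_mul_eq_one _ h1
    have hUij : ∀ i j, U i j = φ (b k j) i := by
      intro i j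
      rw [hU, Module.Basis.toMatrix_apply, hcj]
      simp
    have hBU : B * U = U * Matrix.diagonal (fun j => ((-Real.log (w k j) : ℝ) : ℂ)) := by
      ext i j
      rw [Matrix.mul_apply, Matrix.mul_diagonal]
      have h1 := congrFun (hB (b k j)) i
      rw [hWb, map_smul, Pi.smul_apply, smul_eq_mul] at h1
      simp only [hUij]
      rw [mul_comm, h1]
      rfl
    have hSU : Sᴴ * S * U = U * Matrix.diagonal (fun j => ((w k j : ℝ) : ℂ)) := by
      ext i j
      rw [Matrix.mul_apply, Matrix.mul_diagonal]
      have h1 := congrFun (hSS (b k j)) i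
      rw [hb2, map_smul, Pi.smul_apply, smul_eq_mul] at h1
      simp only [hUij]
      rw [mul_comm, h1]
      rfl
    have hdet : IsUnit U.det := (Matrix.isUnit_iff_isUnit_det U).1 hUu
    have hB2 : -B = U * Matrix.diagonal (fun j => ((Real.log (w k j) : ℝ) : ℂ)) * U⁻¹ := by
      have h1 : B = U * Matrix.diagonal (fun j => ((-Real.log (w k j) : ℝ) : ℂ)) * U⁻¹ := by
        rw [← hBU, Matrix.mul_assoc, Matrix.mul_nonsing_inv U hdet, Matrix.mul_one]
      rw [h1, ← Matrix.neg_mul, ← Matrix.mul_neg, Matrix.diagonal_neg]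
      congr 3
      funext j
      push_cast
      ring
    have hS2 : Sᴴ * S = U * Matrix.diagonal (fun j => ((w k j : ℝ) : ℂ)) * U⁻¹ := by
      rw [← hSU, Matrix.mul_assoc, Matrix.mul_nonsing_inv U hdet, Matrix.mul_one]
    rw [hB2, hS2, Matrix.exp_conj _ _ hUu, Matrix.exp_diagonal]
    congr 3
    funext j
    rw [Pi.coe_exp, ← Complex.exp_eq_exp_ℂ, ← Complex.ofReal_exp, Real.exp_log (hb3 k j)]

end Pool.Agent.Helper37.KP
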