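import Pool.Agent.Helper68.KP.StS

set_option autoImplicit false

/-! Project KP, module PJZ: projection and determinant identities. -/

namespace Pool.Agent.Helper37.KP

open Pool.Agent.Helper52.KP Pool.Agent.Helper68.KP Filter Topology Matrix

theorem hPJZ : StPJZ := by
  intro N p X V' T hV hT hX
  have hdet : IsUnit T.det := (Matrix.isUnit_iff_isUnit_det T).1 hT
  have hdetH : IsUnit (Tᴴ).det := by
    rw [Matrix.det_conjTranspose]
    exact hdet.star
  have hXX : Xᴴ * X = Tᴴ * T := by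
    rw [hX, Matrix.conjTranspose_mul]
    calc Tᴴ * V'ᴴ * (V' * T) = Tᴴ * (V'ᴴ * V') * T := by simp only [Matrix.mul_assoc]
      _ = Tᴴ * T := by rw [hV, Matrix.mul_one]
  refine ⟨?_, ?_, ?_⟩
  · unfold pj
    rw [hXX, Matrix.mul_inv_rev, hX, Matrix.conjTranspose_mul]
    calc V' * T * (T⁻¹ * (Tᴴ)⁻¹) * (Tᴴ * V'ᴴ)
        = V' * (T * T⁻¹) * ((Tᴴ)⁻¹ * Tᴴ) * V'ᴴ := by simp only [Matrix.mul_assoc]
      _ = V' * V'ᴴ := by
          rw [Matrix.mul_nonsing_inv T hdet, Matrix.nonsing_inv_mul (Tᴴ) hdetH, Matrix.mul_one,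
            Matrix.mul_one]
  · exact norm_pos_iff.2 hdet.ne_zero
  · intro A
    have h1 : Xᴴ * A * X = Tᴴ * (V'ᴴ * A * V') * T := by
      rw [hX, Matrix.conjTranspose_mul]
      simp only [Matrix.mul_assoc]
    rw [h1, Matrix.det_mul, Matrix.det_mul, Matrix.det_conjTranspose]
    have h2 : star T.det * T.det = ((‖T.det‖ ^ 2 : ℝ) : ℂ) := by
      have h3 := Complex.conj_mul' T.det
      rw [Complex.star_def, h3]
      push_cast
      rfl
    rw [← h2]
    ring

end Pool.Agent.Helper37.KP
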